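import Mathlib
import Pool.Agent.Q84.BlockCx

/-!
# The block-`ℓ²` bound for lacunary coefficients fails
-/

set_option autoImplicit false

namespace Pool.Agent.Results.MP_b4ed43_an.BlockBoundFails

open Filter
open scoped ENNReal

/-- The admissible sequences `(r_k)`: increasing, `0 < r_k < 2^{k-10}`, `r_k → ∞`. -/
def Admissible (r : ℕ → ℝ) : Prop :=
  StrictMono r ∧ (∀ k, 0 < r k ∧ r k < 2 ^ k / 2 ^ 10) ∧ Tendsto r atTop atTop

/-- `A = ⋃_k [2^k - r_k, 2^k + r_k] ∩ ℤ`. -/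
def A (r : ℕ → ℝ) : Set ℤ := {n | ∃ k : ℕ, (2 : ℝ) ^ k - r k ≤ n ∧ (n : ℝ) ≤ 2 ^ k + r k}

/-- The indices `λ_s`: `λ_0 = 0` and `λ_{s+1}` is the least `m` with `r_m ≥ 2^{λ_s}`. -/
noncomputable def lam (r : ℕ → ℝ) : ℕ → ℕ
  | 0 => 0
  | s + 1 => sInf {m : ℕ | (2 : ℝ) ^ (lam r s) ≤ r m}

/-- `Φ(g) = ∑_s (∑_{k=λ_s}^{λ_{s+1}-1} |ĝ(2^k)|)²`, an element of `[0, ∞]`. The circle is
`ℝ/ℤ` and `fourierCoeff` is Mathlib's Fourier coefficient `∫ g(t) exp(-2πint) dt`. -/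
noncomputable def Phi (r : ℕ → ℝ) (g : C(UnitAddCircle, ℂ)) : ℝ≥0∞ :=
  ∑' s, (∑ k ∈ Finset.Ico (lam r s) (lam r (s + 1)), ‖fourierCoeff g (2 ^ k)‖ₑ) ^ 2

theorem lam_eq (s : ℕ) : lam Q84.BlockSeq.r s = Q84.BlockSeq.lam s := by
  induction s with
  | zero => rw [lam, Q84.BlockSeq.lam_zero]
  | succ s ih =>
    rw [lam, ih]
    exact (Q84.BlockSeq.isLeast s).csInf_eq

theorem phi_ge (S : ℕ) : ((S : ℝ≥0∞) / 16) ≤ Phi Q84.BlockSeq.r (Q84.BlockCx.f S) := by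
  unfold Phi
  refine le_trans ?_ (ENNReal.sum_le_tsum (Finset.range S))
  have h : ∀ s ∈ Finset.range S, (1 / 16 : ℝ≥0∞) ≤
      (∑ k ∈ Finset.Ico (lam Q84.BlockSeq.r s) (lam Q84.BlockSeq.r (s + 1)),
        ‖fourierCoeff (Q84.BlockCx.f S) (2 ^ k)‖ₑ) ^ 2 := by
    intro s hs
    rw [Finset.mem_range] at hs
    rw [lam_eq, lam_eq]
    have h1 : (1 / 4 : ℝ≥0∞) ≤ ∑ k ∈ Finset.Ico (Q84.BlockSeq.lam s) (Q84.BlockSeq.lam (s + 1)),
        ‖fourierCoeff (Q84.BlockCx.f S) (2 ^ k)‖ₑ := by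
      have hsub : Q84.BlockCx.B s ⊆
          Finset.Ico (Q84.BlockSeq.lam s) (Q84.BlockSeq.lam (s + 1)) := by
        unfold Q84.BlockCx.B
        apply Finset.Ico_subset_Ico le_rfl
        rw [Q84.BlockSeq.lam_succ]
        omega
      refine le_trans ?_ (Finset.sum_le_sum_of_subset hsub)
      have h2 : ∀ k ∈ Q84.BlockCx.B s, ENNReal.ofReal (1 / (4 * 2 ^ s)) ≤
          ‖fourierCoeff (Q84.BlockCx.f S) (2 ^ k)‖ₑ := by
        intro k hk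
        rw [← ofReal_norm]
        exact ENNReal.ofReal_le_ofReal (Q84.BlockCx.co_f_norm s k hk S hs)
      refine le_trans ?_ (Finset.sum_le_sum h2)
      rw [Finset.sum_const, Q84.BlockCx.card_B, nsmul_eq_mul]
      have h3 : (((2 ^ s : ℕ)) : ℝ≥0∞) = ENNReal.ofReal ((2 ^ s : ℕ) : ℝ) := by
        rw [ENNReal.ofReal_natCast]
      rw [h3, ← ENNReal.ofReal_mul (by positivity)]
      have h4 : (((2 ^ s : ℕ)) : ℝ) * (1 / (4 * 2 ^ s)) = 1 / 4 := by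
        push_cast; field_simp
      rw [h4]
      have h5 : (1 / 4 : ℝ≥0∞) = ENNReal.ofReal (1 / 4) := by
        rw [ENNReal.ofReal_div_of_pos (by norm_num)]; simp
      rw [h5]
    calc (1 / 16 : ℝ≥0∞) = (1 / 4) ^ 2 := by
          simp only [one_div]
          rw [← ENNReal.inv_pow]
          norm_num
      _ ≤ _ := by gcongr
  refine le_trans ?_ (Finset.sum_le_sum h)
  rw [Finset.sum_const, Finset.card_range, nsmul_eq_mul, mul_one_div]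

/-- **The block-`ℓ²` bound fails.** There is an admissible sequence `(r_k)` such that for every
`C` there is `f ∈ C(𝕋)` with `f̂(n) = 0` for all `n ∉ A` and `Φ(f) > C ‖f‖²`. -/
theorem result : ∃ r : ℕ → ℝ, Admissible r ∧ ∀ C : ℝ, ∃ f : C(UnitAddCircle, ℂ),
    (∀ n : ℤ, n ∉ A r → fourierCoeff f n = 0) ∧
      ENNReal.ofReal (C * ‖f‖ ^ 2) < Phi r f := by
  refine ⟨Q84.BlockSeq.r, ⟨Q84.BlockSeq.r_strictMono,
    fun k => ⟨Q84.BlockSeq.r_pos k, Q84.BlockSeq.r_lt_pow k⟩, Q84.BlockSeq.r_tendsto⟩,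
    fun C => ?_⟩
  obtain ⟨S, hS⟩ := exists_nat_gt (16 * |C|)
  refine ⟨Q84.BlockCx.f S, fun n hn => ?_, ?_⟩
  · by_contra h
    exact hn (Q84.BlockCx.f_spec S n h)
  · refine lt_of_lt_of_le ?_ (phi_ge S)
    have h1 : ‖Q84.BlockCx.f S‖ ≤ 1 :=
      (ContinuousMap.norm_le _ zero_le_one).2 (Q84.BlockCx.f_norm S)
    have h2 : C * ‖Q84.BlockCx.f S‖ ^ 2 ≤ |C| := by
      have h3 : ‖Q84.BlockCx.f S‖ ^ 2 ≤ 1 := pow_le_one₀ (norm_nonneg _) h1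
      have h4 := le_abs_self C
      have h5 := sq_nonneg ‖Q84.BlockCx.f S‖
      have h6 := abs_nonneg C
      nlinarith
    have h3 : ((S : ℝ≥0∞) / 16) = ENNReal.ofReal ((S : ℝ) / 16) := by
      rw [ENNReal.ofReal_div_of_pos (by norm_num), ENNReal.ofReal_natCast]
      simp
    rw [h3]
    have h4 := abs_nonneg C
    rw [ENNReal.ofReal_lt_ofReal_iff (by linarith)]
    linarith

end Pool.Agent.Results.MP_b4ed43_an.BlockBoundFails
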